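import Pool.Agent.L7h19.IK.Stm
import Pool.Agent.L7h65.IT.Bas

/-!
# Project IK: the expansion `S_EXP5`
-/

set_option autoImplicit false
set_option linter.all false

namespace Pool.Agent.L7h56.IK

open Finset Polynomial Pool.Agent.W262.RK Pool.Agent.W108.RK Pool.Agent.W762.RK2 Pool.Agent.L7h19.RP
  Pool.Agent.L7h19.IS Pool.Agent.L7h19.IT Pool.Agent.L7h19.IK Pool.Agent.L7h65.IS Pool.Agent.L7h65.IT
open Pool.Agent.L7h19.RP.AT (gm)

variable {J : Type} [Fintype J] [DecidableEq J] {z y r : ℕ}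

/-- vectors over `𝔽₂` -/
abbrev Ve (r : ℕ) : Type := Fin r → ZMod 2

/-- the marks -/
abbrev Mk (r : ℕ) : Type := Ve r × Ve r

lemma z2 (a : ZMod 2) (h : a ≠ 0) : a = 1 := by
  revert h
  revert a
  decide

lemma chi (S : ℝ) (hS : S * S = 1) (v x : Ve r) :
    ∏ i, (if x i ≠ 0 then (if v i ≠ 0 then S else 1) else 1) = if v ⬝ᵥ x ≠ 0 then S else 1 := by
  have h1 : ∀ a b : ZMod 2, (if a + b ≠ 0 then S else (1 : ℝ)) =
      (if a ≠ 0 then S else 1) * (if b ≠ 0 then S else 1) := by
    intro a b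
    have ha : a = 0 ∨ a = 1 := by
      by_cases h : a = 0
      · exact Or.inl h
      · exact Or.inr (z2 a h)
    have hb : b = 0 ∨ b = 1 := by
      by_cases h : b = 0
      · exact Or.inl h
      · exact Or.inr (z2 b h)
    have h11 : (1 : ZMod 2) + 1 = 0 := by decide
    have h10 : (1 : ZMod 2) ≠ 0 := by decide
    rcases ha with rfl | rfl <;> rcases hb with rfl | rfl <;> simp [h11, h10, hS]
  have h2 : ∀ i, (if x i ≠ 0 then (if v i ≠ 0 then S else (1 : ℝ)) else 1) =
      if v i * x i ≠ 0 then S else 1 := by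
    intro i
    by_cases hx : x i = 0
    · simp [hx]
    · by_cases hv : v i = 0
      · simp [hv]
      · have := mul_ne_zero hv hx
        simp [hx, hv]
  rw [Finset.prod_congr rfl fun i _ => h2 i]
  have h3 : ∀ s : Finset (Fin r), ∏ i ∈ s, (if v i * x i ≠ 0 then S else (1 : ℝ)) =
      if ∑ i ∈ s, v i * x i ≠ 0 then S else 1 := by
    intro s
    induction s using Finset.induction_on with
    | empty => simp
    | insert a s ha ih => rw [Finset.prod_insert ha, Finset.sum_insert ha, h1, ih]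
  exact h3 univ

lemma sum_dvr (a : Pr z y → Bool) (G : (Fin r → ℕ) → ℝ) :
    ∑ e ∈ Fintype.piFinset (fun _ : Fin r => (nb a).divisors), G e =
      ∑ x : Pr z y → Ve r, if ∀ p, x p ≠ 0 → a p = true then
        G (fun i => nb fun p => decide (x p i ≠ 0)) else 0 := by
  rw [← Finset.sum_filter]
  refine Finset.sum_nbij' (fun e => fun p i => if (p : ℕ) ∣ e i then 1 else 0)
    (fun x => fun i => nb fun p => decide (x p i ≠ 0)) ?_ ?_ ?_ ?_ ?_
  · intro e he
    rw [Fintype.mem_piFinset] at he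
    rw [mem_filter]
    refine ⟨mem_univ _, fun p hp => ?_⟩
    obtain ⟨i, hi⟩ := Function.ne_iff.1 hp
    have h1 : (p : ℕ) ∣ e i := by
      by_contra h
      exact hi (if_neg h)
    exact dvd_of_dvd_nb (Nat.mem_divisors.1 (he i)).1 h1
  · intro x hx
    rw [Fintype.mem_piFinset]
    intro i
    rw [Nat.mem_divisors]
    refine ⟨nb_dvd fun p hp => ?_, nb_ne_zero _⟩
    refine (mem_filter.1 hx).2 p fun h => ?_
    have h2 := of_decide_eq_true hp
    rw [h] at h2
    exact h2 rfl
  · intro e he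
    rw [Fintype.mem_piFinset] at he
    funext i
    have h1 : (fun p : Pr z y => decide ((if (p : ℕ) ∣ e i then (1 : ZMod 2) else 0) ≠ 0)) =
        fun p : Pr z y => decide ((p : ℕ) ∣ e i) := by
      funext p
      by_cases h : (p : ℕ) ∣ e i
      · simp [h]
      · simp [h]
    show nb (fun p : Pr z y => decide ((if (p : ℕ) ∣ e i then (1 : ZMod 2) else 0) ≠ 0)) = e i
    rw [h1]
    exact nb_eq ((Nat.mem_divisors.1 (he i)).1.trans (nb_dvd_PP a))
  · intro x _
    funext p i
    show (if (p : ℕ) ∣ nb (fun p : Pr z y => decide (x p i ≠ 0)) then (1 : ZMod 2) else 0) = x p i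
    by_cases h : x p i = 0
    · rw [if_neg, h]
      rw [dvd_nb]
      simp [h]
    · rw [if_pos, z2 _ h]
      rw [dvd_nb]
      simp [h]
  · intro e he
    rw [Fintype.mem_piFinset] at he
    congr 1
    funext i
    have h1 : (fun p : Pr z y => decide ((if (p : ℕ) ∣ e i then (1 : ZMod 2) else 0) ≠ 0)) =
        fun p : Pr z y => decide ((p : ℕ) ∣ e i) := by
      funext p
      by_cases h : (p : ℕ) ∣ e i
      · simp [h]
      · simp [h]
    show e i = nb (fun p : Pr z y => decide ((if (p : ℕ) ∣ e i then (1 : ZMod 2) else 0) ≠ 0))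
    rw [h1]
    exact (nb_eq ((Nat.mem_divisors.1 (he i)).1.trans (nb_dvd_PP a))).symm

/-- the product of the symbols -/
noncomputable def DR (τ : Bool) (ε : ℕ → ℤ) (μ : Pr z y → Mk r) : ℝ :=
  ∏ p : Pr z y, ∏ q : Pr z y, if (μ q).1 ⬝ᵥ (μ p).2 ≠ 0 then (sy τ ε p q : ℝ) else 1

lemma Jr_sq' {p q : Pr z y} (h : q ≠ p) :
    ((jacobiSym ((q : ℕ) : ℤ) p : ℤ) : ℝ) * ((jacobiSym ((q : ℕ) : ℤ) p : ℤ) : ℝ) = 1 := by
  have := Jr_sq h
  unfold Jr at this
  exact this

lemma sy_sq (τ : Bool) (ε : ℕ → ℤ) (hε : ∀ p, ε p = 1 ∨ ε p = -1) (p q : Pr z y) :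
    (sy τ ε p q : ℝ) * sy τ ε p q = 1 := by
  have hε' : ∀ p, (ε p : ℝ) * ε p = 1 := by
    intro p
    rcases hε p with h | h <;> rw [h] <;> norm_num
  unfold sy lam
  by_cases h : q = p
  · subst h
    cases τ <;> simp [hε']
  · have h1 : ¬ (q : ℕ) = p := fun h' => h (Subtype.ext h')
    have h2 : ¬ (p : ℕ) = q := fun h' => h1 h'.symm
    cases τ
    · simp only [h2, if_false, Bool.false_eq_true]
      exact Jr_sq' fun h' => h h'.symm
    · simp only [h1, if_false, if_true]
      exact Jr_sq' h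

lemma prod_sy (τ : Bool) (ε : ℕ → ℤ) (hε : ∀ p, ε p = 1 ∨ ε p = -1) (v x : Pr z y → Ve r) :
    ∏ i, ∏ p ∈ (nb fun p => decide (x p i ≠ 0)).primeFactors,
      ∏ q ∈ (nb fun p => decide (v p i ≠ 0)).primeFactors, (sy τ ε p q : ℝ) =
      DR τ ε fun p => (v p, x p) := by
  have h1 : ∀ i, ∏ p ∈ (nb fun p => decide (x p i ≠ 0)).primeFactors,
      ∏ q ∈ (nb fun p => decide (v p i ≠ 0)).primeFactors, (sy τ ε p q : ℝ) =
      ∏ p : Pr z y, ∏ q : Pr z y, (if x p i ≠ 0 then (if v q i ≠ 0 then (sy τ ε p q : ℝ) else 1) else 1) := by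
    intro i
    rw [prod_pf (fun p : Pr z y => decide (x p i ≠ 0)) fun p =>
      ∏ q ∈ (nb fun p => decide (v p i ≠ 0)).primeFactors, (sy τ ε p q : ℝ)]
    refine Finset.prod_congr rfl fun p _ => ?_
    rw [prod_pf (fun p : Pr z y => decide (v p i ≠ 0)) fun q => (sy τ ε p q : ℝ)]
    by_cases h : x p i = 0
    · simp [h]
    · simp only [h, ne_eq, not_false_eq_true, decide_true, if_true, decide_eq_true_eq]
  rw [Finset.prod_congr rfl fun i _ => h1 i, Finset.prod_comm]
  unfold DR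
  refine Finset.prod_congr rfl fun p _ => ?_
  rw [Finset.prod_comm]
  refine Finset.prod_congr rfl fun q _ => ?_
  exact chi _ (sy_sq τ ε hε p q) (v q) (x p)

/-- the conditions at a prime, for the two marks -/
def Cd (a b : Bool) (m : Mk r) : Prop := (m.1 ≠ 0 → a = true) ∧ (m.2 ≠ 0 → b = true)

instance (a b : Bool) (m : Mk r) : Decidable (Cd a b m) := by
  unfold Cd
  infer_instance

/-- the marks span -/
def Sp (μ : Pr z y → Mk r) : Prop := ∀ w : Ve r, w ≠ 0 → ∃ p, w ⬝ᵥ (μ p).2 ≠ 0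

instance (μ : Pr z y → Mk r) : Decidable (Sp μ) := by
  unfold Sp
  infer_instance

lemma Idp_iff (b : Pr z y → Bool) (x : Pr z y → Ve r) (hx : ∀ p, x p ≠ 0 → b p = true) :
    Idp r (nb b) (fun i => nb fun p => decide (x p i ≠ 0)) ↔
      ∀ w : Ve r, w ≠ 0 → ∃ p, w ⬝ᵥ x p ≠ 0 := by
  have key : ∀ (w : Ve r) (p : Pr z y),
      ∑ i, w i * (if (p : ℕ) ∣ nb (fun p : Pr z y => decide (x p i ≠ 0)) then 1 else 0) = w ⬝ᵥ x p := by
    intro w p
    unfold dotProduct
    refine Finset.sum_congr rfl fun i _ => ?_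
    congr 1
    by_cases h : x p i = 0
    · rw [if_neg, h]
      rw [dvd_nb]
      simp [h]
    · rw [if_pos, z2 _ h]
      rw [dvd_nb]
      simp [h]
  unfold Idp
  refine forall_congr' fun w => imp_congr Iff.rfl ?_
  constructor
  · rintro ⟨p, hp, h⟩
    have hp2 := Nat.mem_primeFactors.1 hp
    have h3 : p ∈ Ts b := by rw [← nb_pf]; exact hp
    unfold Ts at h3
    rw [Finset.mem_map] at h3
    obtain ⟨P, hP, hPp⟩ := h3
    have h4 : (P : ℕ) = p := hPp
    refine ⟨P, ?_⟩
    rw [← key w P, h4]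
    exact h
  · rintro ⟨P, hP⟩
    have h1 : x P ≠ 0 := by
      intro h
      rw [h] at hP
      exact hP (by simp)
    refine ⟨P, ?_, ?_⟩
    · rw [nb_pf, mem_Ts]
      exact hx P h1
    · rw [key w P]
      exact hP

lemma FR_eq (τ : Bool) (ε : ℕ → ℤ) (hε : ∀ p, ε p = 1 ∨ ε p = -1) (a b : Pr z y → Bool) :
    FR τ ε r (nb a) (nb b) = (∏ p : Pr z y, if b p = true then (1 / 2 ^ r : ℝ) else 1) *
      ∑ μ : Pr z y → Mk r, if (∀ p, Cd (a p) (b p) (μ p)) ∧ Sp μ then DR τ ε μ else 0 := by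
  have h1 : ((2:ℝ) ^ (r * (nb b).primeFactors.card))⁻¹ =
      ∏ p : Pr z y, if b p = true then (1 / 2 ^ r : ℝ) else 1 := by
    rw [← prod_pf b fun _ => (1 / 2 ^ r : ℝ), Finset.prod_const, pow_mul, ← inv_pow]
    norm_num
  unfold FR
  rw [div_eq_mul_inv, h1, mul_comm]
  congr 1
  rw [Finset.sum_filter, sum_dvr b]
  have h2 : ∀ x : Pr z y → Ve r, (if ∀ p, x p ≠ 0 → b p = true then
      (if Idp r (nb b) (fun i => nb fun p => decide (x p i ≠ 0)) then
        ∑ d ∈ Fintype.piFinset (fun _ : Fin r => (nb a).divisors),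
          ∏ i, ∏ p ∈ (nb fun p => decide (x p i ≠ 0)).primeFactors,
            ∏ q ∈ (d i).primeFactors, (sy τ ε p q : ℝ) else 0) else 0) =
      ∑ v : Pr z y → Ve r, if (∀ p, Cd (a p) (b p) (v p, x p)) ∧ Sp (fun p => (v p, x p)) then
        DR τ ε (fun p => (v p, x p)) else 0 := by
    intro x
    by_cases hx : ∀ p, x p ≠ 0 → b p = true
    · rw [if_pos hx]
      have h3 := Idp_iff b x hx
      by_cases hI : ∀ w : Ve r, w ≠ 0 → ∃ p, w ⬝ᵥ x p ≠ 0
      · rw [if_pos (h3.2 hI), sum_dvr a]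
        refine Finset.sum_congr rfl fun v _ => ?_
        by_cases hv : ∀ p, v p ≠ 0 → a p = true
        · rw [if_pos hv, if_pos ⟨fun p => ⟨hv p, hx p⟩, hI⟩]
          exact prod_sy τ ε hε v x
        · rw [if_neg hv, if_neg fun h => hv fun p => (h.1 p).1]
      · rw [if_neg fun h => hI (h3.1 h)]
        symm
        exact Finset.sum_eq_zero fun v _ => if_neg fun h => hI h.2
    · rw [if_neg hx]
      symm
      exact Finset.sum_eq_zero fun v _ => if_neg fun h => hx fun p => (h.1 p).2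
  rw [Finset.sum_congr rfl fun x _ => h2 x, Finset.sum_comm,
    sum_arr (fun v x : Pr z y → Ve r => if (∀ p, Cd (a p) (b p) (v p, x p)) ∧
      Sp (fun p => (v p, x p)) then DR τ ε (fun p => (v p, x p)) else 0)]

/-- the product of the symbols outside the diagonal -/
noncomputable def OR (τ : Bool) (μ : Pr z y → Mk r) : ℝ :=
  ∏ p : Pr z y, ∏ q : Pr z y, if (decide (q ≠ p) && (if τ = true then decide ((μ q).1 ⬝ᵥ (μ p).2 ≠ 0) else
    decide ((μ q).2 ⬝ᵥ (μ p).1 ≠ 0))) = true then Jr ((q : ℕ) : ℤ) p else 1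

lemma DR_split (τ : Bool) (ε : ℕ → ℤ) (μ : Pr z y → Mk r) :
    DR τ ε μ = (∏ p : Pr z y, if (μ p).1 ⬝ᵥ (μ p).2 ≠ 0 then (ε p : ℝ) else 1) * OR τ μ := by
  have hd : ∀ F : Pr z y → ℝ, ∏ p : Pr z y, F p = ∏ p : Pr z y, ∏ q : Pr z y, if q = p then F p else 1 := by
    intro F
    refine Finset.prod_congr rfl fun p _ => ?_
    rw [Finset.prod_ite_eq' univ p fun _ => F p]
    simp
  cases τ with
  | true =>
    unfold DR OR
    rw [hd (fun p => if (μ p).1 ⬝ᵥ (μ p).2 ≠ 0 then (ε p : ℝ) else 1), ← Finset.prod_mul_distrib]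
    refine Finset.prod_congr rfl fun p _ => ?_
    rw [← Finset.prod_mul_distrib]
    refine Finset.prod_congr rfl fun q _ => ?_
    unfold sy lam
    by_cases hq : q = p
    · subst hq
      simp
    · have hq' : ¬ (q : ℕ) = p := fun h => hq (Subtype.ext h)
      by_cases hv : (μ q).1 ⬝ᵥ (μ p).2 = 0
      · simp [hq, hv]
      · simp [hq, hq', hv, Jr]
  | false =>
    unfold DR OR
    rw [Finset.prod_comm]
    rw [hd (fun p => if (μ p).1 ⬝ᵥ (μ p).2 ≠ 0 then (ε p : ℝ) else 1), ← Finset.prod_mul_distrib]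
    refine Finset.prod_congr rfl fun p _ => ?_
    rw [← Finset.prod_mul_distrib]
    refine Finset.prod_congr rfl fun q _ => ?_
    unfold sy lam
    rw [dotProduct_comm (μ q).2 (μ p).1]
    by_cases hq : q = p
    · subst hq
      simp
    · have hq' : ¬ (q : ℕ) = p := fun h => hq (Subtype.ext h)
      by_cases hv : (μ p).1 ⬝ᵥ (μ q).2 = 0
      · simp [hq, hv]
      · simp [hq, hq', hv, Jr]

/-- the average of the diagonal symbols at a prime -/
noncomputable def al5 (m : Mk r) : ℝ := if m.1 ⬝ᵥ m.2 ≠ 0 then 0 else 1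

lemma avg5 (τ : Bool) (θ : ℕ → ℤ) (B C : Pr z y → Bool) (μ : Pr z y → Mk r)
    (h : ∀ p, Cd (B p) (C p) (μ p)) :
    (1 / 2 : ℝ) ^ (nb fun p => B p && C p).primeFactors.card *
      ∑ η : Pr z y → Bool, (if ∀ p, η p = true → (B p && C p) = true then
        DR τ (fun p => eE (Ts η) p * θ p) μ else 0) =
      (∏ p : Pr z y, al5 (μ p)) * OR τ μ := by
  set g : Bool → Pr z y → ℝ := fun b p =>
    (if (μ p).1 ⬝ᵥ (μ p).2 ≠ 0 then (if b = true then -1 else 1) * (θ p : ℝ) else 1) with hg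
  have h1 : ∀ η : Pr z y → Bool, DR τ (fun p => eE (Ts η) p * θ p) μ =
      (∏ p, g (η p) p) * OR τ μ := by
    intro η
    rw [DR_split, hg]
    have e1 : ∀ p : Pr z y, (eE (Ts η) p : ℝ) = if η p = true then -1 else 1 := by
      intro p
      unfold eE
      by_cases hp : η p = true
      · rw [if_pos ((mem_Ts η p).2 hp), if_pos hp]
        norm_num
      · rw [if_neg fun h => hp ((mem_Ts η p).1 h), if_neg hp]
        norm_num
    simp only [Int.cast_mul, e1]
  have h2 : ∑ η : Pr z y → Bool, (if ∀ p, η p = true → (B p && C p) = true then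
        DR τ (fun p => eE (Ts η) p * θ p) μ else 0) =
      (∑ η : Pr z y → Bool, (if ∀ p, η p = true → (B p && C p) = true then
        ∏ p, g (η p) p else 0)) * OR τ μ := by
    rw [Finset.sum_mul]
    refine Finset.sum_congr rfl fun η _ => ?_
    rw [h1, ite_mul, zero_mul]
  rw [h2, ← mul_assoc, avg (fun p => B p && C p) g]
  congr 1
  refine Finset.prod_congr rfl fun p _ => ?_
  obtain ⟨h3, h4⟩ := h p
  simp only [hg, al5]
  by_cases hd : (μ p).1 ⬝ᵥ (μ p).2 = 0
  · simp [hd]
  · have h5 : (μ p).1 ≠ 0 := by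
      intro h6
      rw [h6] at hd
      exact hd (by simp)
    have h6 : (μ p).2 ≠ 0 := by
      intro h6
      rw [h6] at hd
      exact hd (by simp)
    rw [h3 h5, h4 h6]
    simp [hd]

/-- the conditions at a prime -/
def C5 (iB iC : J → Bool) (o : Option J) (m : Mk r) : Prop := Cd (tm iB o) (tm iC o) m

instance (iB iC : J → Bool) (o : Option J) (m : Mk r) : Decidable (C5 iB iC o m) := by
  unfold C5
  infer_instance

/-- the weight of a prime -/
noncomputable def wt5 (iC : J → Bool) (r : ℕ) (f : J → ℤ[X]) (c : ℕ) (p : ℕ) (o : Option J) : ℝ :=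
  o.elim 1 fun j => gaw (f j) (if iC j = true then 1 / 2 ^ r else 1) c p

/-- the weights with the marks -/
noncomputable def TA5 (iB iC : J → Bool) (f : J → ℤ[X]) (c : ℕ) (p : ℕ) (o : Option J)
    (m : Mk r) : ℝ :=
  o.elim (if m = (0, 0) then 1 else 0) fun j =>
    ∑ h : Bool, if vR iB iC r (j, m, h) then gaw (f j) (wR iC r (j, m, h)) c p else 0

lemma TA5_eq (iB iC : J → Bool) (f : J → ℤ[X]) (c : ℕ) (p : ℕ) (o : Option J) (m : Mk r) :
    TA5 iB iC f c p o m = if C5 iB iC o m then wt5 iC r f c p o * al5 m else 0 := by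
  obtain ⟨v, x⟩ := m
  cases o with
  | none =>
    have hB : tm iB (none : Option J) = false := rfl
    have hC : tm iC (none : Option J) = false := rfl
    simp only [TA5, C5, Cd, wt5, al5, Option.elim, hB, hC, one_mul]
    by_cases hv : v = 0
    · by_cases hx : x = 0
      · simp [hv, hx]
      · have h1 : ¬ ((v, x) : Mk r) = (0, 0) := fun h => hx (Prod.ext_iff.1 h).2
        rw [if_neg h1, if_neg]
        intro h
        exact absurd (h.2 hx) (by decide)
    · have h1 : ¬ ((v, x) : Mk r) = (0, 0) := fun h => hv (Prod.ext_iff.1 h).1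
      rw [if_neg h1, if_neg]
      intro h
      exact absurd (h.1 hv) (by decide)
  | some j =>
    have hB : tm iB (some j) = iB j := rfl
    have hC : tm iC (some j) = iC j := rfl
    simp only [TA5, C5, Cd, wt5, al5, Option.elim, hB, hC, Fintype.sum_bool]
    by_cases h1 : (v ≠ 0 → iB j = true) ∧ (x ≠ 0 → iC j = true)
    · rw [if_pos h1]
      by_cases h2 : v ⬝ᵥ x = 0
      · have h3 : ∀ h : Bool, vR iB iC r (j, (v, x), h) := fun h => ⟨h1.1, h1.2, h2⟩
        rw [if_pos (h3 _), if_pos (h3 _), if_neg (not_not.2 h2)]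
        unfold gaw wR
        by_cases hc : iC j = true
        · simp only [hc, if_true]
          field_simp
          ring
        · simp only [hc, if_false, Bool.false_eq_true]
          ring
      · have h3 : ∀ h : Bool, ¬ vR iB iC r (j, (v, x), h) := fun h h' => h2 h'.2.2
        rw [if_neg (h3 _), if_neg (h3 _), if_pos h2]
        ring
    · rw [if_neg h1]
      have h3 : ∀ h : Bool, ¬ vR iB iC r (j, (v, x), h) := fun h h' => h1 ⟨h'.1, h'.2.1⟩
      rw [if_neg (h3 _), if_neg (h3 _)]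
      ring

/-- the symbols -/
noncomputable def GM5 (τ : Bool) (μ : Pr z y → Mk r) : ℝ := if Sp μ then OR τ μ else 0

lemma lhs_term5 (iB iC : J → Bool) (f : J → ℤ[X]) (θ : ℕ → ℤ) (hθ : ∀ p, θ p = 1 ∨ θ p = -1)
    (τ : Bool) (c : ℕ) (ξ : Pr z y → Option J) :
    ((1 / 2) ^ (PW iB iC (Dl ξ)).card * ∑ E ∈ (PW iB iC (Dl ξ)).powerset,
      FR τ (fun p => eE E p * θ p) r (pP iB (Dl ξ)) (pP iC (Dl ξ))) *
        ∏ j, gm (gaw (f j) 1 c) (Dl ξ j) =
      ∑ μ : Pr z y → Mk r, (∏ p : Pr z y, TA5 iB iC f c p (ξ p) (μ p)) * GM5 τ μ := by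
  set B : Pr z y → Bool := fun p => tm iB (ξ p) with hB
  set C : Pr z y → Bool := fun p => tm iC (ξ p) with hC
  have hm : pP iB (Dl ξ) = nb B := pP_Dl iB ξ
  have hn : pP iC (Dl ξ) = nb C := pP_Dl iC ξ
  have hW : PW iB iC (Dl ξ) = (nb fun p => B p && C p).primeFactors := PW_Dl iB iC ξ
  have hε : ∀ E : Finset ℕ, ∀ p, eE E p * θ p = 1 ∨ eE E p * θ p = -1 := by
    intro E p
    unfold eE
    rcases hθ p with h | h <;> rw [h] <;> split_ifs <;> norm_num
  -- the weights
  have hw : (∏ j, gm (gaw (f j) 1 c) (Dl ξ j)) *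
      (∏ p : Pr z y, if C p = true then (1 / 2 ^ r : ℝ) else 1) =
      ∏ p : Pr z y, wt5 iC r f c p (ξ p) := by
    rw [Pool.Agent.L7h19.RP.prod_gm (fun j => gaw (f j) 1 c) ξ, ← Finset.prod_mul_distrib]
    refine Finset.prod_congr rfl fun p _ => ?_
    simp only [hC]
    cases hx : ξ p with
    | none => simp [tm, wt5]
    | some j =>
      simp only [tm, wt5, Option.elim]
      unfold gaw
      by_cases hc : iC j = true
      · simp only [hc, if_true]
        ring
      · simp only [hc, if_false, Bool.false_eq_true]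
        ring
  rw [hm, hn, hW, sum_pw]
  rw [Finset.sum_congr rfl fun η _ => if_congr Iff.rfl (FR_eq τ _ (hε (Ts η)) B C) rfl]
  -- exchange the sums
  have h2 : ∑ η : Pr z y → Bool, (if ∀ p, η p = true → (B p && C p) = true then
      (∏ p : Pr z y, if C p = true then (1 / 2 ^ r : ℝ) else 1) *
      ∑ μ : Pr z y → Mk r, (if (∀ p, Cd (B p) (C p) (μ p)) ∧ Sp μ then
        DR τ (fun p => eE (Ts η) p * θ p) μ else 0) else 0) =
      (∏ p : Pr z y, if C p = true then (1 / 2 ^ r : ℝ) else 1) *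
      ∑ μ : Pr z y → Mk r, if (∀ p, Cd (B p) (C p) (μ p)) ∧ Sp μ then
        ∑ η : Pr z y → Bool, (if ∀ p, η p = true → (B p && C p) = true then
          DR τ (fun p => eE (Ts η) p * θ p) μ else 0) else 0 := by
    rw [Finset.mul_sum]
    have e1 : ∀ η : Pr z y → Bool, (if ∀ p, η p = true → (B p && C p) = true then
      (∏ p : Pr z y, if C p = true then (1 / 2 ^ r : ℝ) else 1) *
      ∑ μ : Pr z y → Mk r, (if (∀ p, Cd (B p) (C p) (μ p)) ∧ Sp μ then
        DR τ (fun p => eE (Ts η) p * θ p) μ else 0) else 0) =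
      ∑ μ : Pr z y → Mk r, (∏ p : Pr z y, if C p = true then (1 / 2 ^ r : ℝ) else 1) *
        (if (∀ p, Cd (B p) (C p) (μ p)) ∧ Sp μ then
          (if ∀ p, η p = true → (B p && C p) = true then
          DR τ (fun p => eE (Ts η) p * θ p) μ else 0) else 0) := by
      intro η
      by_cases h3 : ∀ p, η p = true → (B p && C p) = true
      · rw [if_pos h3, Finset.mul_sum]
        refine Finset.sum_congr rfl fun μ _ => ?_
        rw [if_pos h3]
      · rw [if_neg h3]
        symm
        refine Finset.sum_eq_zero fun μ _ => ?_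
        rw [if_neg h3, ite_self, mul_zero]
    rw [Finset.sum_congr rfl fun η _ => e1 η, Finset.sum_comm]
    refine Finset.sum_congr rfl fun μ _ => ?_
    rw [← Finset.mul_sum]
    congr 1
    by_cases h3 : (∀ p, Cd (B p) (C p) (μ p)) ∧ Sp μ
    · rw [if_pos h3]
      refine Finset.sum_congr rfl fun η _ => ?_
      rw [if_pos h3]
    · rw [if_neg h3]
      refine Finset.sum_eq_zero fun η _ => ?_
      rw [if_neg h3]
  rw [h2]
  have h3 : ∀ S R D W : ℝ, S * (R * D) * W = (W * R) * (S * D) := by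
    intro S R D W
    ring
  rw [h3, hw, Finset.mul_sum, Finset.mul_sum]
  refine Finset.sum_congr rfl fun μ _ => ?_
  have h4 : ∏ p : Pr z y, TA5 iB iC f c p (ξ p) (μ p) = if ∀ p, Cd (B p) (C p) (μ p) then
      (∏ p : Pr z y, wt5 iC r f c p (ξ p)) * ∏ p : Pr z y, al5 (μ p) else 0 := by
    by_cases h5 : ∀ p, Cd (B p) (C p) (μ p)
    · rw [if_pos h5, ← Finset.prod_mul_distrib]
      refine Finset.prod_congr rfl fun p _ => ?_
      rw [TA5_eq]
      exact if_pos (h5 p)
    · rw [if_neg h5]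
      simp only [not_forall] at h5
      obtain ⟨p, hp⟩ := h5
      refine Finset.prod_eq_zero (mem_univ p) ?_
      rw [TA5_eq]
      exact if_neg hp
  rw [h4]
  unfold GM5
  by_cases h5 : ∀ p, Cd (B p) (C p) (μ p)
  · rw [if_pos h5]
    by_cases h6 : Sp μ
    · rw [if_pos ⟨h5, h6⟩, if_pos h6]
      have h7 := avg5 τ θ B C μ h5
      rw [h7]
      ring
    · rw [if_neg fun h => h6 h.2, if_neg h6]
      ring
  · rw [if_neg h5, if_neg fun h => h5 h.1]
    ring

/-! ### The right side -/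

/-- the label and the marks -/
def fk5 (x : Option (Lab J r)) : Option J × Mk r :=
  (x.map fun i => i.1, x.elim (0, 0) fun i => i.2.1)

/-- the local weights -/
noncomputable def WA5 (iB iC : J → Bool) (f : J → ℤ[X]) (c : ℕ) (p : ℕ) (x : Option (Lab J r)) : ℝ :=
  x.elim 1 fun i => if vR iB iC r i then gaw (f i.1) (wR iC r i) c p else 0

lemma fiber5 (iB iC : J → Bool) (f : J → ℤ[X]) (c : ℕ) (p : ℕ) (x : Option J × Mk r) :
    ∑ u ∈ univ.filter (fun u : Option (Lab J r) => fk5 u = x), WA5 iB iC f c p u =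
      TA5 iB iC f c p x.1 x.2 := by
  obtain ⟨x, ε⟩ := x
  rw [Finset.sum_filter, Fintype.sum_option]
  cases x with
  | none =>
    have h1 : ∑ i : Lab J r, (if fk5 (some i) = ((none : Option J), ε) then
        WA5 iB iC f c p (some i) else 0) = 0 := by
      refine Finset.sum_eq_zero fun i _ => if_neg ?_
      simp [fk5]
    rw [h1, add_zero]
    simp only [fk5, Option.map_none, Option.elim, Prod.mk.injEq, true_and, WA5, TA5]
    refine if_congr ?_ rfl rfl
    exact ⟨fun h => h.symm, fun h => h.symm⟩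
  | some j =>
    have h0 : (if fk5 (none : Option (Lab J r)) = (some j, ε) then
        WA5 iB iC f c p (none : Option (Lab J r)) else 0) = 0 := by
      rw [if_neg]
      simp [fk5]
    rw [h0, zero_add]
    have h1 : ∀ F : Lab J r → ℝ, ∑ i : Lab J r, F i = ∑ j' : J, ∑ m : Mk r, ∑ h : Bool, F (j', m, h) := by
      intro F
      rw [Fintype.sum_prod_type]
      refine Finset.sum_congr rfl fun j' _ => ?_
      rw [Fintype.sum_prod_type]
    rw [h1, Finset.sum_eq_single j]
    · rw [Finset.sum_eq_single ε]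
      · simp only [TA5, Option.elim, WA5]
        refine Finset.sum_congr rfl fun h _ => ?_
        exact if_pos rfl
      · intro m _ hm
        refine Finset.sum_eq_zero fun h _ => if_neg fun h' => hm ?_
        simp only [fk5, Option.map_some, Option.elim, Prod.mk.injEq, Option.some.injEq] at h'
        exact h'.2
      · intro h
        exact absurd (mem_univ _) h
    · intro j' _ hj
      refine Finset.sum_eq_zero fun m _ => Finset.sum_eq_zero fun h _ => if_neg fun h' => hj ?_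
      simp only [fk5, Option.map_some, Option.elim, Prod.mk.injEq, Option.some.injEq] at h'
      exact h'.1
    · intro h
      exact absurd (mem_univ _) h

lemma Sym_eq5 (iB iC : J → Bool) (τ : Bool) (l : Pr z y → Option (Lab J r))
    (hl : ∀ p i, l p = some i → vR iB iC r i) :
    Pool.Agent.W262.RK.Sym (LR τ r) (fun _ => 1) (Dl l) = OR τ fun p => (fk5 (l p)).2 := by
  rw [Sym_Dl]
  have h1 : ∏ p : Pr z y, ((l p).elim 1 fun _ => Jr 1 p) = (1 : ℝ) := by
    refine Finset.prod_eq_one fun p _ => ?_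
    cases l p with
    | none => rfl
    | some i => exact Jr_one_left _
  rw [h1, mul_one]
  unfold OR
  refine Finset.prod_congr rfl fun p _ => ?_
  refine Finset.prod_congr rfl fun q _ => ?_
  beta_reduce
  cases hq : l q with
  | none =>
    have e : Pool.Agent.W762.RK2.lk (LR τ r) (none : Option (Lab J r)) (l p) = false := rfl
    rw [e]
    simp [fk5]
  | some i =>
    cases hp : l p with
    | none =>
      have e : Pool.Agent.W762.RK2.lk (LR τ r) (some i) (none : Option (Lab J r)) = false := rfl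
      rw [e]
      simp [fk5]
    | some k =>
      have e : Pool.Agent.W762.RK2.lk (LR τ r) (some i) (some k) = LR τ r i k := rfl
      rw [e]
      simp only [fk5, Option.elim, LR]
      by_cases hqp : q = p
      · have hik : i = k := by
          rw [hqp, hp] at hq
          exact (Option.some.inj hq).symm
        simp [hqp, hik]
      · by_cases hik : i = k
        · have h2 := (hl p _ hp).2.2
          rw [hik]
          have h3 : k.2.1.2 ⬝ᵥ k.2.1.1 = 0 := by rw [dotProduct_comm]; exact h2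
          simp [hqp, h2, h3]
        · cases τ with
          | false => by_cases h5 : i.2.1.2 ⬝ᵥ k.2.1.1 = 0 <;> simp [hik, hqp, h5]
          | true => by_cases h5 : i.2.1.1 ⬝ᵥ k.2.1.2 = 0 <;> simp [hik, hqp, h5]

lemma rhs_term5 (iB iC : J → Bool) (f : J → ℤ[X]) (τ : Bool) (c : ℕ) (l : Pr z y → Option (Lab J r)) :
    (if QR iB iC r (univ.filter (fun i => Dl l i ≠ 1)) then
      (∏ i : Lab J r, gm (gaw (f i.1) (wR iC r i) c) (Dl l i)) *
        Pool.Agent.W262.RK.Sym (LR τ r) (fun _ => 1) (Dl l) else 0) =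
      (∏ p : Pr z y, WA5 iB iC f c p (l p)) * GM5 τ fun p => (fk5 (l p)).2 := by
  have hn : ∀ i : Lab J r, Dl l i ≠ 1 ↔ ∃ p, l p = some i := by
    intro i
    unfold Dl
    rw [nb_ne_one]
    simp only [decide_eq_true_eq]
  have hm : ∀ i : Lab J r, i ∈ univ.filter (fun i => Dl l i ≠ 1) ↔ ∃ p, l p = some i := by
    intro i
    rw [mem_filter, ← hn]
    exact ⟨fun h => h.2, fun h => ⟨mem_univ _, h⟩⟩
  have hA : (∀ i ∈ univ.filter (fun i => Dl l i ≠ 1), vR iB iC r i) ↔
      ∀ i : Lab J r, (∃ p, l p = some i) → vR iB iC r i :=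
    forall_congr' fun i => imp_congr (hm i) Iff.rfl
  have hc : (∀ w : Fin r → ZMod 2, w ≠ 0 → ∃ i ∈ univ.filter (fun i => Dl l i ≠ 1), w ⬝ᵥ i.2.1.2 ≠ 0) ↔
      Sp fun p => (fk5 (l p)).2 := by
    unfold Sp
    refine forall_congr' fun w => imp_congr Iff.rfl ?_
    constructor
    · rintro ⟨i, h1, h2⟩
      obtain ⟨p, hp⟩ := (hm i).1 h1
      refine ⟨p, ?_⟩
      show w ⬝ᵥ (fk5 (l p)).2.2 ≠ 0
      rw [hp]
      exact h2
    · rintro ⟨p, hp⟩
      have hp' : w ⬝ᵥ (fk5 (l p)).2.2 ≠ 0 := hp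
      cases hx : l p with
      | none =>
        rw [hx] at hp'
        simp [fk5] at hp'
      | some i =>
        rw [hx] at hp'
        exact ⟨i, (hm i).2 ⟨p, hx⟩, hp'⟩
  by_cases hv : ∀ i : Lab J r, (∃ p, l p = some i) → vR iB iC r i
  · have hW : ∏ p : Pr z y, WA5 iB iC f c p (l p) =
        ∏ p : Pr z y, (l p).elim 1 fun i => gaw (f i.1) (wR iC r i) c p := by
      refine Finset.prod_congr rfl fun p _ => ?_
      cases hx : l p with
      | none => rfl
      | some i =>
        simp only [WA5, Option.elim]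
        rw [if_pos (hv i ⟨p, hx⟩)]
    rw [Pool.Agent.L7h19.RP.prod_gm (fun i : Lab J r => gaw (f i.1) (wR iC r i) c) l,
      Sym_eq5 iB iC τ l fun p i h => hv i ⟨p, h⟩, hW]
    unfold GM5
    by_cases h : Sp fun p => (fk5 (l p)).2
    · rw [if_pos (show QR iB iC r _ from ⟨hA.2 hv, hc.2 h⟩), if_pos h]
    · rw [if_neg (fun h' : QR iB iC r _ => h (hc.1 h'.2)), if_neg h, mul_zero]
  · rw [if_neg fun h : QR iB iC r _ => hv (hA.1 h.1)]
    simp only [not_forall] at hv
    obtain ⟨i, ⟨p, hp⟩, hi⟩ := hv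
    have h0 : ∏ p : Pr z y, WA5 iB iC f c p (l p) = 0 := by
      refine Finset.prod_eq_zero (mem_univ p) ?_
      simp only [WA5, hp, Option.elim]
      rw [if_neg hi]
    rw [h0, zero_mul]

/-- **S_EXP5** -/
theorem s_EXP5 : S_EXP5 := by
  classical
  intro J _ _ iB iC f θ τ r c z y hBC hθ _ _
  rw [sum_Tup fun s => ((1 / 2) ^ (PW iB iC s).card * ∑ E ∈ (PW iB iC s).powerset,
      FR τ (fun p => eE E p * θ p) r (pP iB s) (pP iC s)) *
        ∏ j, gm (gaw (f j) 1 c) (s j),
    Finset.sum_filter,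
    sum_Tup fun d : Lab J r → ℕ =>
      if QR iB iC r (univ.filter (fun i => d i ≠ 1)) then
        (∏ i : Lab J r, gm (gaw (f i.1) (wR iC r i) c) (d i)) *
          Pool.Agent.W262.RK.Sym (LR τ r) (fun _ => 1) d else 0]
  rw [Finset.sum_congr rfl fun ξ _ => lhs_term5 iB iC f θ hθ τ c ξ,
    Finset.sum_congr rfl fun l _ => rhs_term5 iB iC f τ c l]
  rw [← Finset.sum_fiberwise univ (fun (l : Pr z y → Option (Lab J r)) => fun p => fk5 (l p))]
  have h1 : ∀ ζ : Pr z y → Option J × Mk r,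
      ∑ l ∈ univ.filter (fun l : Pr z y → Option (Lab J r) => (fun p => fk5 (l p)) = ζ),
        (∏ p : Pr z y, WA5 iB iC f c p (l p)) * (GM5 τ fun p => (fk5 (l p)).2) =
      (∏ p : Pr z y, TA5 iB iC f c p (ζ p).1 (ζ p).2) * GM5 τ fun p => (ζ p).2 := by
    intro ζ
    have h2 : (univ.filter fun l : Pr z y → Option (Lab J r) => (fun p => fk5 (l p)) = ζ) =
        Fintype.piFinset (fun p => univ.filter (fun x : Option (Lab J r) => fk5 x = ζ p)) := by
      ext l
      simp only [Finset.mem_filter, Finset.mem_univ, true_and, Fintype.mem_piFinset, funext_iff]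
    rw [Finset.prod_congr rfl fun (p : Pr z y) _ => (fiber5 iB iC f c p (ζ p)).symm,
      Finset.prod_univ_sum, Finset.sum_mul, h2]
    refine Finset.sum_congr rfl fun l hl => ?_
    rw [Fintype.mem_piFinset] at hl
    have h3 : ∀ p, fk5 (l p) = ζ p := fun p => (Finset.mem_filter.1 (hl p)).2
    simp only [h3]
  rw [Finset.sum_congr rfl fun ζ _ => h1 ζ,
    sum_arr (fun (ξ : Pr z y → Option J) (μ : Pr z y → Mk r) =>
      (∏ p : Pr z y, TA5 iB iC f c p (ξ p) (μ p)) * GM5 τ μ)]

end Pool.Agent.L7h56.IK
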